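import Pool.Agent.Y14.CV.Fin

set_option autoImplicit false

namespace Pool.Agent.Results.MP_9fcec4_mp.OscillatingIonization

open Pool.Agent.Helper67.Conv

/-- Ionization energies of dilute systems of protons. `I[M] = E(M - 1) - E(M)`, where `E(M)` is the
infimum of the quadratic form of the Coulomb Hamiltonian of `M` electrons (spin 1/2, antisymmetric
normalised Schwartz wave functions) and `K` nuclei of charge one at the points `lam • P k`.

(1) For all `n, r` there are `10 n + 2 r` distinct points such that for every sufficiently large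
`lam` the ionization energies oscillate `n` times: for every `j < n`, with
`N = 2 n + r + 2 j + 1`, `0 < I[N]`, `I[N] < I[N - 1]` and `I[N] < I[N + 1]`. With `n = 1` this is a
failure of the convexity of `E` at `N = r + 3`, with `2 N + 4` protons.

(2) For every `K ≥ 3` and all distinct points `P`, for every sufficiently large `lam` one has
`I[3] < I[2]`. -/
theorem result :
    (∀ n r : ℕ, ∃ P : Fin (10 * n + 2 * r) → Space, Function.Injective P ∧
      ∃ lam₀ : ℝ, 0 < lam₀ ∧ ∀ lam : ℝ, lam₀ ≤ lam →
        (∀ M ≤ 10 * n + 2 * r, (energies (fun _ => 1) (fun k => lam • P k) M).Nonempty ∧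
          BddBelow (energies (fun _ => 1) (fun k => lam • P k) M)) ∧
        ∀ j < n,
          0 < ionization (fun _ => 1) (fun k => lam • P k) (2 * n + r + 2 * j + 1) ∧
          ionization (fun _ => 1) (fun k => lam • P k) (2 * n + r + 2 * j + 1) <
            ionization (fun _ => 1) (fun k => lam • P k) (2 * n + r + 2 * j) ∧
          ionization (fun _ => 1) (fun k => lam • P k) (2 * n + r + 2 * j + 1) <
            ionization (fun _ => 1) (fun k => lam • P k) (2 * n + r + 2 * j + 2)) ∧
    (∀ K : ℕ, 3 ≤ K → ∀ P : Fin K → Space, Function.Injective P →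
      ∃ lam₀ : ℝ, 0 < lam₀ ∧ ∀ lam : ℝ, lam₀ ≤ lam →
        (∀ M ≤ 3, (energies (fun _ => 1) (fun k => lam • P k) M).Nonempty ∧
          BddBelow (energies (fun _ => 1) (fun k => lam • P k) M)) ∧
        ionization (fun _ => 1) (fun k => lam • P k) 3 <
          ionization (fun _ => 1) (fun k => lam • P k) 2) := by
  have key : ∀ {p : ℝ → Prop}, (∀ᶠ lam in Filter.atTop, p lam) →
      ∃ lam₀ : ℝ, 0 < lam₀ ∧ ∀ lam : ℝ, lam₀ ≤ lam → p lam := by
    intro p hp
    obtain ⟨a, ha⟩ := Filter.eventually_atTop.mp hp
    exact ⟨max a 1, lt_max_of_lt_right one_pos, fun lam h => ha lam (le_trans (le_max_left _ _) h)⟩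
  refine ⟨fun n r => ?_, fun K hK P hP => key (Pool.Agent.Y14.CV.two hK P hP)⟩
  obtain ⟨P, hP, h⟩ := Pool.Agent.Y14.CV.osc n r
  exact ⟨P, hP, key h⟩

end Pool.Agent.Results.MP_9fcec4_mp.OscillatingIonization
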